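import Pool.Agent.Helper84.FX.StX

/-!
# Project FX, module A0: the part `σ = 0` over `W_G`
-/

set_option autoImplicit false

namespace Pool.Agent.Helper48.FX

open Set Pool.Agent.Helper84.FX Pool.Agent.Helper72.FX

noncomputable section

/-- Weights. -/
private def wt : Fin 10 → ℕ := ![0, 0, 0, 1, 1, 1, 1, 2, 2, 2]

/-- Scaling with weights. -/
private def sc (q : ℂ × (Fin 10 → ℂ)) : Fin 10 → ℂ := fun i => q.1 ^ wt i * q.2 i

private theorem sc_cont : Continuous sc := by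
  unfold sc
  refine continuous_pi fun i => ?_
  exact (continuous_fst.pow _).mul ((continuous_apply i).comp continuous_snd)

private theorem sc_one (z : Fin 10 → ℂ) : sc (1, z) = z := by
  funext i
  simp [sc]

private theorem sc0 (c : ℂ) (z : Fin 10 → ℂ) : sc (c, z) 0 = z 0 := by simp [sc, wt]
private theorem sc1 (c : ℂ) (z : Fin 10 → ℂ) : sc (c, z) 1 = z 1 := by simp [sc, wt]
private theorem sc2 (c : ℂ) (z : Fin 10 → ℂ) : sc (c, z) 2 = z 2 := by simp [sc, wt]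
private theorem sc3 (c : ℂ) (z : Fin 10 → ℂ) : sc (c, z) 3 = c * z 3 := by simp [sc, wt]
private theorem sc4 (c : ℂ) (z : Fin 10 → ℂ) : sc (c, z) 4 = c * z 4 := by simp [sc, wt]
private theorem sc5 (c : ℂ) (z : Fin 10 → ℂ) : sc (c, z) 5 = c * z 5 := by simp [sc, wt]
private theorem sc6 (c : ℂ) (z : Fin 10 → ℂ) : sc (c, z) 6 = c * z 6 := by simp [sc, wt]
private theorem sc7 (c : ℂ) (z : Fin 10 → ℂ) : sc (c, z) 7 = c ^ 2 * z 7 := by simp [sc, wt]
private theorem sc8 (c : ℂ) (z : Fin 10 → ℂ) : sc (c, z) 8 = c ^ 2 * z 8 := by simp [sc, wt]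
private theorem sc9 (c : ℂ) (z : Fin 10 → ℂ) : sc (c, z) 9 = c ^ 2 * z 9 := by simp [sc, wt]

/-- The target. -/
private def TS (U : Set ℂ) : Set (Fin 10 → ℂ) := {z | z ∈ WG U ∧ z 5 = 0}

/-- The source. -/
private def SS' (U : Set ℂ) : Set ((Fin 10 → ℂ) × ℝ) := {q | q ∈ DM (N1G U) (N2G U) ∧ q.1 5 = 0}

private theorem mem_TS (U : Set ℂ) (z : Fin 10 → ℂ) : z ∈ TS U ↔
    z 2 ∈ U ∧ z 3 = 0 ∧ z 5 = 0 ∧ nz z = 0 ∧
      -(z 6 * z 4 * kappa (z 0) (z 1) (z 2)) + (z 8 - z 7) = 0 := by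
  constructor
  · rintro ⟨⟨⟨h2, h3, h4⟩, h5⟩, h6⟩
    have h7 : z 3 = 0 := by rw [← h5, h6]
    simp only [EE1, E1] at h3
    simp only [EE2, E2] at h4
    refine ⟨h2, h7, h6, ?_, ?_⟩
    · simp only [nz]
      rw [h7, h6] at h3
      simpa using h3
    · rw [h6, zero_mul, add_zero] at h4
      exact h4
  · rintro ⟨h2, h3, h5, h6, h7⟩
    refine ⟨⟨⟨h2, ?_, ?_⟩, ?_⟩, h5⟩
    · simp only [EE1, E1]
      simp only [nz] at h6
      rw [h6, h3, h5]
      simp
    · simp only [EE2, E2]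
      rw [h5, zero_mul, add_zero]
      exact h7
    · rw [h3, h5]

private theorem mem_SS (U : Set ℂ) (q : (Fin 10 → ℂ) × ℝ) : q ∈ SS' U ↔
    0 ≤ q.2 ∧ q.2 ≤ 1 ∧ q.1 2 ∈ U ∧ q.1 3 = 0 ∧ q.1 5 = 0 ∧ q.1 7 = 0 ∧ q.1 8 = 0 ∧ q.1 9 = 0 ∧
      nz q.1 = 0 ∧ (q.2 < 1 → q.1 4 = 0) ∧ (0 < q.2 → q.1 6 = 0) := by
  obtain ⟨z, r⟩ := q
  constructor
  · rintro ⟨⟨h0, h1, h2, h3⟩, h5⟩
    simp only at h0 h1 h2 h3 h5 ⊢
    rcases lt_or_ge r 1 with hr | hr
    · obtain ⟨⟨a1, a2, a3, a4, a5, a6⟩, a7⟩ := h2 hr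
      refine ⟨h0, h1, a1, by rw [← a7, h5], h5, a3, a4, a5, by rw [a6, h5, zero_mul], fun _ => a2, fun h => ?_⟩
      exact (h3 h).1.2.1
    · obtain ⟨⟨a1, a2, a3, a4, a5, a6⟩, a7⟩ := h3 (by linarith)
      have h8 : z 3 = 0 := by rw [← a7, h5]
      refine ⟨h0, h1, a1, h8, h5, a3, a4, a5, by rw [a6, h8, zero_mul], fun h => ?_, fun _ => a2⟩
      exact (h2 h).1.2.1
  · rintro ⟨h0, h1, a1, a3, a5, a7, a8, a9, an, h4, h6⟩
    simp only at h0 h1 a1 a3 a5 a7 a8 a9 an h4 h6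
    refine ⟨⟨h0, h1, fun h => ⟨⟨a1, h4 h, a7, a8, a9, ?_⟩, ?_⟩, fun h => ⟨⟨a1, h6 h, a7, a8, a9, ?_⟩, ?_⟩⟩, a5⟩
    · show nz z = z 5 * z 6
      rw [an, a5, zero_mul]
    · show z 5 = z 3
      rw [a5, a3]
    · show nz z = z 3 * z 4
      rw [an, a3, zero_mul]
    · show z 5 = z 3
      rw [a5, a3]

private theorem sc_TS (U : Set ℂ) (c : ℂ) (z : Fin 10 → ℂ) (h : z ∈ TS U) : sc (c, z) ∈ TS U := by
  rw [mem_TS] at h ⊢
  obtain ⟨h2, h3, h5, h6, h7⟩ := h
  simp only [nz] at h6 ⊢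
  rw [sc0, sc1, sc2, sc3, sc4, sc5, sc6, sc7, sc8, h3, h5]
  refine ⟨h2, mul_zero _, mul_zero _, h6, ?_⟩
  linear_combination c ^ 2 * h7

/-- The base. -/
private def GB (U : Set ℂ) : Set (Fin 10 → ℂ) := {z | z ∈ TS U ∧ sc (0, z) = z}

private theorem sc_GB (U : Set ℂ) (z : Fin 10 → ℂ) (h : z ∈ TS U) : sc (0, z) ∈ GB U := by
  refine ⟨sc_TS U 0 z h, ?_⟩
  funext i
  simp only [sc]
  rcases Nat.eq_zero_or_pos (wt i) with h1 | h1
  · rw [h1]; ring
  · rw [zero_pow (by omega)]; ring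

private theorem SS_TS (U : Set ℂ) (q : (Fin 10 → ℂ) × ℝ) (h : q ∈ SS' U) : q.1 ∈ TS U := by
  rw [mem_SS] at h
  rw [mem_TS]
  obtain ⟨h0, h1, a1, a3, a5, a7, a8, a9, an, h4, h6⟩ := h
  refine ⟨a1, a3, a5, an, ?_⟩
  have h8 : q.1 6 * q.1 4 = 0 := by
    rcases lt_or_ge q.2 1 with hr | hr
    · rw [h4 hr, mul_zero]
    · rw [h6 (by linarith), zero_mul]
  rw [h8, a7, a8]
  simp

theorem hA0 : StHEQ → StCMP → StCN2 → StCGR → StDMP → StA0 := by
  intro hHEQ _ hCN2 _ hDMP U _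
  have hp : Continuous (fun z : Fin 10 → ℂ => sc (0, z)) :=
    sc_cont.comp (continuous_const.prodMk continuous_id)
  -- the map from the target to the base
  have hT : WE (TS U) (GB U) (fun z => sc (0, z)) := by
    refine hHEQ _ _ (TS U) (GB U) (fun z => sc (0, z)) id ⟨hp.continuousOn, fun z hz => sc_GB U z hz⟩
      ⟨continuousOn_id, fun z hz => hz.1⟩ ?_ ?_
    · refine ⟨fun q => sc ((q.1 : ℂ), q.2), ⟨?_, ?_⟩, ?_, ?_⟩
      · exact (sc_cont.comp ((Complex.continuous_ofReal.comp continuous_fst).prodMk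
          continuous_snd)).continuousOn
      · rintro ⟨τ, z⟩ ⟨_, hz⟩
        exact sc_TS U _ z hz
      · intro z _
        simp
      · intro z _
        simp [sc_one]
    · refine ⟨fun q => q.2, ⟨continuous_snd.continuousOn, fun q hq => hq.2⟩, ?_, ?_⟩
      · intro z hz
        exact hz.2.symm
      · intro z _
        rfl
  -- the map from the source to the base
  have hS : WE (SS' U) (GB U) ((fun z => sc (0, z)) ∘ Prod.fst) := by
    refine hHEQ _ _ (SS' U) (GB U) _ (fun z => (z, (0 : ℝ)))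
      ⟨(hp.comp continuous_fst).continuousOn, fun q hq => sc_GB U q.1 (SS_TS U q hq)⟩
      ⟨(continuous_id.prodMk continuous_const).continuousOn, fun z hz => ?_⟩ ?_ ?_
    · obtain ⟨h1, h2⟩ := hz
      rw [mem_TS] at h1
      obtain ⟨b2, b3, b5, b6, _⟩ := h1
      rw [mem_SS]
      have e4 := congrFun h2 4
      have e6 := congrFun h2 6
      have e7 := congrFun h2 7
      have e8 := congrFun h2 8
      have e9 := congrFun h2 9
      rw [sc4, zero_mul] at e4
      rw [sc6, zero_mul] at e6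
      rw [sc7] at e7
      rw [sc8] at e8
      rw [sc9] at e9
      simp only [ne_eq, OfNat.ofNat_ne_zero, not_false_eq_true, zero_pow, zero_mul] at e7 e8 e9
      exact ⟨le_refl _, zero_le_one, b2, b3, b5, e7.symm, e8.symm, e9.symm, b6, fun _ => e4.symm,
        fun _ => e6.symm⟩
    · refine ⟨fun q => (sc (((max 0 (2 * q.1 - 1) : ℝ) : ℂ), q.2.1), min 1 (2 * q.1) * q.2.2),
        ⟨?_, ?_⟩, ?_, ?_⟩
      · refine Continuous.continuousOn ?_
        refine Continuous.prodMk (sc_cont.comp (Continuous.prodMk ?_ (continuous_fst.comp continuous_snd))) ?_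
        · exact Complex.continuous_ofReal.comp (continuous_const.max
            ((continuous_const.mul continuous_fst).sub continuous_const))
        · exact (continuous_const.min (continuous_const.mul continuous_fst)).mul
            (continuous_snd.comp continuous_snd)
      · rintro ⟨τ, z, r⟩ ⟨⟨ht0, ht1⟩, hz⟩
        simp only at ht0 ht1 hz ⊢
        rw [mem_SS] at hz
        obtain ⟨h0, h1, a1, a3, a5, a7, a8, a9, an, h4, h6⟩ := hz
        simp only at h0 h1 a1 a3 a5 a7 a8 a9 an h4 h6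
        rw [mem_SS]
        simp only [nz] at an ⊢
        rw [sc0, sc1, sc2, sc3, sc4, sc5, sc6, sc7, sc8, sc9, a3, a5, a7, a8, a9]
        have hB0 : 0 ≤ min 1 (2 * τ) := le_min zero_le_one (by linarith)
        have hB1 : min 1 (2 * τ) ≤ 1 := min_le_left _ _
        refine ⟨mul_nonneg hB0 h0, ?_, a1, mul_zero _, mul_zero _, mul_zero _, mul_zero _, mul_zero _, an, ?_, ?_⟩
        · nlinarith
        · intro hlt
          rcases le_total (2 * τ) 1 with h | h
          · rw [max_eq_left (by linarith)]; simp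
          · rw [min_eq_left h, one_mul] at hlt
            rw [h4 hlt, mul_zero]
        · intro hlt
          rcases le_total (2 * τ) 1 with h | h
          · rw [max_eq_left (by linarith)]; simp
          · rw [min_eq_left h, one_mul] at hlt
            rw [h6 hlt, mul_zero]
      · rintro ⟨z, r⟩ _
        simp
      · rintro ⟨z, r⟩ _
        have h1 : max (0 : ℝ) (2 * 1 - 1) = 1 := by norm_num
        have h2 : min (1 : ℝ) (2 * 1) = 1 := by norm_num
        simp only [h1, h2, one_mul, Complex.ofReal_one, sc_one, id]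
    · refine ⟨fun q => q.2, ⟨continuous_snd.continuousOn, fun q hq => hq.2⟩, ?_, ?_⟩
      · intro z hz
        exact hz.2.symm
      · intro z _
        rfl
  have hM : Mp (SS' U) (TS U) Prod.fst :=
    ⟨continuous_fst.continuousOn, fun q hq => SS_TS U q hq⟩
  exact hCN2 _ _ _ (SS' U) (TS U) (GB U) Prod.fst (fun z => sc (0, z)) hM hT hS

end

end Pool.Agent.Helper48.FX
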